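import Pool.Agent.Lib.MP_e326dc_an.Cube.Sys

set_option autoImplicit false

/-!
MP_e326dc_an, part G3: the polynomial sequences on the circle come from minimal systems of finite
order.
-/

open Filter Topology

namespace MP_e326dc_an

/-- The alternating sum over a cube of a polynomial map of lower degree vanishes. -/
theorem PolyLE.alt_sum {A : Type*} [AddCommGroup A] {ι : Type*} [DecidableEq ι] (I : Finset ι) :
    ∀ (d : ℕ) (x : ℤ → A), PolyLE d x → d < I.card → ∀ (h : ι → ℤ) (n : ℤ),
      ∑ S ∈ I.powerset, (-1 : ℤ) ^ S.card • x (n + ∑ i ∈ S, h i) = 0 := by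
  induction I using Finset.induction_on with
  | empty =>
    intro d x _ hd
    simp at hd
  | insert a I ha ih =>
    intro d x hx hd h n
    rw [Finset.sum_powerset_insert ha, ← Finset.sum_add_distrib]
    have h1 : ∀ S ∈ I.powerset, (-1 : ℤ) ^ S.card • x (n + ∑ i ∈ S, h i) +
        (-1 : ℤ) ^ (insert a S).card • x (n + ∑ i ∈ insert a S, h i) =
        -((-1 : ℤ) ^ S.card • (x ((n + ∑ i ∈ S, h i) + h a) - x (n + ∑ i ∈ S, h i))) := by
      intro S hS
      have haS : a ∉ S := fun h' => ha (Finset.mem_powerset.mp hS h')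
      rw [Finset.card_insert_of_notMem haS, Finset.sum_insert haS, pow_succ, mul_neg, mul_one,
        neg_smul, smul_sub, neg_sub]
      have : n + (h a + ∑ i ∈ S, h i) = n + ∑ i ∈ S, h i + h a := by ring
      rw [this]
      abel
    rw [Finset.sum_congr rfl h1, Finset.sum_neg_distrib, neg_eq_zero]
    rw [Finset.card_insert_of_notMem ha] at hd
    cases d with
    | zero =>
      refine Finset.sum_eq_zero fun S _ => ?_
      rw [hx (n + ∑ i ∈ S, h i + h a) (n + ∑ i ∈ S, h i), sub_self, smul_zero]
    | succ d =>
      exact ih d (fun m => x (m + h a) - x m) (hx (h a)) (by omega) h n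

theorem PolyLE.shift {A G : Type*} [AddCommGroup A] [AddCommGroup G] (k : A) :
    ∀ (d : ℕ) (p : A → G), PolyLE d p → PolyLE d fun x => p (x + k)
  | 0, _, hp => fun x y => hp (x + k) (y + k)
  | d + 1, p, hp => fun h => by
    have h1 := PolyLE.shift k d _ (hp h)
    refine (congrArg (PolyLE d) (funext fun x => ?_)).mp h1
    rw [add_right_comm]

theorem isClosed_polyLE (d : ℕ) : IsClosed {x : ℤ → UnitAddCircle | PolyLE d x} := by
  induction d with
  | zero =>
    have : {x : ℤ → UnitAddCircle | PolyLE 0 x} = ⋂ (m : ℤ) (n : ℤ), {x | x m = x n} := by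
      ext x
      simp only [Set.mem_ofPred_eq, Set.mem_iInter]
      rfl
    rw [this]
    exact isClosed_iInter fun m => isClosed_iInter fun n =>
      isClosed_eq (continuous_apply m) (continuous_apply n)
  | succ d ih =>
    have : {x : ℤ → UnitAddCircle | PolyLE (d + 1) x} =
        ⋂ h : ℤ, (fun x : ℤ → UnitAddCircle => fun n => x (n + h) - x n) ⁻¹'
          {x | PolyLE d x} := by
      ext x
      simp only [Set.mem_ofPred_eq, Set.mem_iInter]
      rfl
    rw [this]
    exact isClosed_iInter fun h => ih.preimage (by fun_prop)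

/-- The shift. -/
def shiftHomeo : (ℤ → UnitAddCircle) ≃ₜ (ℤ → UnitAddCircle) where
  toFun x := fun n => x (n + 1)
  invFun x := fun n => x (n - 1)
  left_inv x := by funext n; simp
  right_inv x := by funext n; simp
  continuous_toFun := by fun_prop
  continuous_invFun := by fun_prop

theorem shiftHomeo_inv (d : ℕ) (x : ℤ → UnitAddCircle) :
    PolyLE d x ↔ PolyLE d (shiftHomeo x) := by
  constructor
  · intro h
    exact PolyLE.shift 1 d x h
  · intro h
    have h1 := PolyLE.shift (-1) d _ h
    refine (congrArg (PolyLE d) (funext fun n => ?_)).mp h1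
    show x (n + -1 + 1) = x n
    congr 1
    ring

/-- The system of all polynomial sequences of degree at most `d` on the circle. -/
def polySys (d : ℕ) : DSys :=
  haveI : CompactSpace {x : ℤ → UnitAddCircle // PolyLE d x} :=
    isCompact_iff_compactSpace.mp (isClosed_polyLE d).isCompact
  { X := {x : ℤ → UnitAddCircle // PolyLE d x}
    T := shiftHomeo.subtype (shiftHomeo_inv d) }

/-- The underlying sequence. -/
def polySeq {d : ℕ} (x : (polySys d).X) : ℤ → UnitAddCircle :=
  Subtype.val (p := fun x : ℤ → UnitAddCircle => PolyLE d x) x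

theorem continuous_polySeq {d : ℕ} : Continuous (polySeq (d := d)) := continuous_subtype_val

theorem polySeq_injective {d : ℕ} : Function.Injective (polySeq (d := d)) :=
  Subtype.val_injective

theorem polySeq_polyLE {d : ℕ} (x : (polySys d).X) : PolyLE d (polySeq x) :=
  Subtype.property (p := fun x : ℤ → UnitAddCircle => PolyLE d x) x

theorem polySeq_T {d : ℕ} (x : (polySys d).X) (n : ℤ) :
    polySeq ((polySys d).T x) n = polySeq x (n + 1) := rfl

theorem polySeq_zpow {d : ℕ} (m : ℤ) (x : (polySys d).X) (n : ℤ) :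
    polySeq (((polySys d).T ^ m) x) n = polySeq x (n + m) := by
  induction m using Int.induction_on generalizing n with
  | zero => simp
  | succ m ih =>
    rw [add_comm (m : ℤ) 1, zpow_add_apply, zpow_one, polySeq_T, ih]
    congr 1
    ring
  | pred m ih =>
    have h1 : polySeq (((polySys d).T ^ (-(m : ℤ))) x) (n - 1) =
        polySeq (((polySys d).T ^ (-(m : ℤ) - 1)) x) n := by
      have h2 : ((polySys d).T ^ (-(m : ℤ))) x =
          (polySys d).T (((polySys d).T ^ (-(m : ℤ) - 1)) x) := by
        have h3 := zpow_add_apply (polySys d).T 1 (-(m : ℤ) - 1) x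
        rw [zpow_one] at h3
        rw [← h3]
        congr 2
        ring
      rw [h2, polySeq_T]
      congr 1
      ring
    rw [← h1, ih]
    congr 1
    ring

theorem polySys_uniqCub (d : ℕ) : UniqCub (polySys d).T d := by
  -- the alternating sums vanish
  have halt : ∀ c ∈ Cub (polySys d).T (Fin (d + 1)), ∀ n : ℤ,
      ∑ S : Finset (Fin (d + 1)), (-1 : ℤ) ^ S.card • polySeq (c S) n = 0 := by
    intro c hc n
    have hcl : IsClosed {c : Finset (Fin (d + 1)) → (polySys d).X |
        ∑ S : Finset (Fin (d + 1)), (-1 : ℤ) ^ S.card • polySeq (c S) n = 0} := by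
      refine isClosed_eq ?_ continuous_const
      refine continuous_finsetSum _ fun S _ => ?_
      exact ((continuous_apply n).comp (continuous_polySeq.comp (continuous_apply S))).zsmul _
    refine closure_minimal ?_ hcl hc
    rintro _ ⟨m, h, x, rfl⟩
    simp only [Set.mem_ofPred_eq, dcube, expo]
    have h1 := PolyLE.alt_sum (Finset.univ : Finset (Fin (d + 1))) d (polySeq x)
      (polySeq_polyLE x) (by simp) h (n + m)
    rw [Finset.powerset_univ] at h1
    rw [← h1]
    refine Finset.sum_congr rfl fun S _ => ?_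
    rw [polySeq_zpow, add_assoc]
  intro c hc c' hc' hcc
  have htop : polySeq (c Finset.univ) = polySeq (c' Finset.univ) := by
    funext n
    have h1 := halt c hc n
    have h2 := halt c' hc' n
    have h3 : ∑ S : Finset (Fin (d + 1)),
        ((-1 : ℤ) ^ S.card • polySeq (c S) n - (-1 : ℤ) ^ S.card • polySeq (c' S) n) = 0 := by
      rw [Finset.sum_sub_distrib, h1, h2, sub_zero]
    rw [Finset.sum_eq_single (Finset.univ : Finset (Fin (d + 1)))] at h3
    · rw [← smul_sub] at h3
      have h4 : ((-1 : ℤ) ^ (Finset.univ : Finset (Fin (d + 1))).card) •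
          ((-1 : ℤ) ^ (Finset.univ : Finset (Fin (d + 1))).card) •
          (polySeq (c Finset.univ) n - polySeq (c' Finset.univ) n) = 0 := by
        rw [h3, smul_zero]
      rw [smul_smul, ← mul_pow, neg_mul_neg, one_mul, one_pow, one_smul] at h4
      exact sub_eq_zero.mp h4
    · intro S _ hS
      rw [hcc S hS, sub_self]
    · intro h
      exact absurd (Finset.mem_univ _) h
  funext S
  by_cases hS : S = Finset.univ
  · rw [hS]
    exact polySeq_injective htop
  · exact hcc S hS

/-- G3: polynomial sequences on the circle come from minimal systems of finite order. -/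
theorem exists_polySys (d : ℕ) (x : ℤ → UnitAddCircle) (hx : PolyLE d x) :
    ∃ (P : DSys) (_ : TopologicalSpace.MetrizableSpace P.X) (_ : P.Ord d) (z : P.X)
      (p : C(P.X, UnitAddCircle)), (∀ n : ℤ, x n = p ((P.T ^ n) z)) ∧
        ∀ w : P.X, PolyLE d fun n : ℤ => p ((P.T ^ n) w) := by
  set x' : (polySys d).X := (⟨x, hx⟩ : {x : ℤ → UnitAddCircle // PolyLE d x}) with hx'
  obtain ⟨Q, hQ, w, π, hw, hm⟩ := exists_joint (κ := Unit) (fun _ => (polySys d).orb x')
    (s := d) (fun _ => DSys.orb_ord (polySys_uniqCub d).distalU (polySys_uniqCub d) x')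
    (fun _ => (⟨x', subset_closure ⟨0, by simp⟩⟩ : {y // y ∈ orbC (polySys d).T x'}))
  set ρ : Q.X → (polySys d).X := fun y =>
    Subtype.val (p := (· ∈ orbC (polySys d).T x')) ((π ()).π y) with hρ
  have hρc : Continuous ρ := continuous_subtype_val.comp (π ()).cont
  have hρe : ∀ y, ρ (Q.T y) = (polySys d).T (ρ y) := by
    intro y
    simp only [hρ]
    rw [(π ()).equi y]
    rfl
  have hρw : ρ w = x' := by
    simp only [hρ]
    rw [hw ()]
  have hρz : ∀ (n : ℤ) (y : Q.X), ρ ((Q.T ^ n) y) = ((polySys d).T ^ n) (ρ y) := fun n y =>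
    equi_zpow hρe n y
  have hmet : TopologicalSpace.MetrizableSpace Q.X := by
    refine hm fun _ => ?_
    have h1 : SecondCountableTopology {x : ℤ → UnitAddCircle // PolyLE d x} :=
      TopologicalSpace.Subtype.secondCountableTopology {x : ℤ → UnitAddCircle | PolyLE d x}
    have h2 : SecondCountableTopology (polySys d).X := h1
    have h3 : SecondCountableTopology {y // y ∈ orbC (polySys d).T x'} := inferInstance
    have h4 : SecondCountableTopology ((polySys d).orb x').X := h3
    exact TopologicalSpace.metrizableSpace_of_t3_secondCountable _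
  refine ⟨Q, hmet, hQ, w, ⟨fun y => polySeq (ρ y) 0, (continuous_apply 0).comp
    (continuous_polySeq.comp hρc)⟩, fun n => ?_, fun y => ?_⟩
  · show x n = polySeq (ρ ((Q.T ^ n) w)) 0
    rw [hρz, polySeq_zpow, hρw, zero_add]
    rfl
  · have h1 : (fun n : ℤ => polySeq (ρ ((Q.T ^ n) y)) 0) = polySeq (ρ y) := by
      funext n
      rw [hρz, polySeq_zpow, zero_add]
    exact (congrArg (PolyLE d) h1).mpr (polySeq_polyLE _)

end MP_e326dc_an
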