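import Pool.Agent.Lib.MP_e326dc_an.Final

set_option autoImplicit false

/-!
MP_e326dc_an, part G0: reduction to a system in `Type` with bounded measurable functions.
-/

namespace MP_e326dc_an

open MeasureTheory Filter Topology
open scoped ENNReal

/-- The truncation. -/
noncomputable def clamp (C : ℝ) (z : ℂ) : ℂ := if ‖z‖ ≤ C then z else 0

theorem measurable_clamp (C : ℝ) : Measurable (clamp C) :=
  Measurable.ite (measurableSet_le measurable_norm measurable_const) measurable_id
    measurable_const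

theorem norm_clamp_le {C : ℝ} (hC : 0 ≤ C) (z : ℂ) : ‖clamp C z‖ ≤ C := by
  rw [clamp]
  split_ifs with h
  · exact h
  · simpa using hC

theorem clamp_of_le {C : ℝ} {z : ℂ} (h : ‖z‖ ≤ C) : clamp C z = z := if_pos h

/-- Bounded measurable representatives. -/
theorem exists_rep {X : Type*} [MeasurableSpace X] {μ : Measure X} {f : X → ℂ}
    (hf : MemLp f ⊤ μ) : ∃ (g : X → ℂ) (C : ℝ), 0 ≤ C ∧ Measurable g ∧ f =ᵐ[μ] g ∧
      ∀ x, ‖g x‖ ≤ C := by
  obtain ⟨hm, hb⟩ := hf
  set C : ℝ := (eLpNormEssSup f μ).toReal with hC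
  have hfin : eLpNormEssSup f μ ≠ ⊤ := by
    rw [← eLpNorm_exponent_top]
    exact hb.ne
  have h1 : ∀ᵐ x ∂μ, ‖f x‖ ≤ C := by
    filter_upwards [enorm_ae_le_eLpNormEssSup f μ] with x hx
    rw [hC, ← toReal_enorm]
    exact ENNReal.toReal_mono hfin hx
  refine ⟨fun x => clamp C (hm.mk f x), C, ENNReal.toReal_nonneg,
    (measurable_clamp C).comp hm.stronglyMeasurable_mk.measurable, ?_,
    fun x => norm_clamp_le ENNReal.toReal_nonneg _⟩
  filter_upwards [h1, hm.ae_eq_mk] with x hx hx'
  rw [← hx', clamp_of_le hx]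

section Model

variable {ℓ : ℕ} {κ : Type} {X : Type*} [MeasurableSpace X] {μ : Measure X}
  (T : MPAction (Fin ℓ → ℤ) X μ) (g : κ → X → ℂ)

/-- The map to the space of sequences. -/
def modelMap (x : X) : κ → (Fin ℓ → ℤ) → ℂ := fun i v => g i (T.T v x)

/-- The shift. -/
def modelShift (v : Fin ℓ → ℤ) (ξ : κ → (Fin ℓ → ℤ) → ℂ) : κ → (Fin ℓ → ℤ) → ℂ :=
  fun i w => ξ i (w + v)

theorem modelMap_T (v : Fin ℓ → ℤ) (x : X) :
    modelMap T g (T.T v x) = modelShift v (modelMap T g x) := by
  funext i w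
  simp only [modelMap, modelShift]
  rw [T.T_add]

theorem measurable_modelMap (hg : ∀ i, Measurable (g i)) : Measurable (modelMap T g) := by
  refine measurable_pi_lambda _ fun i => measurable_pi_lambda _ fun v => ?_
  exact (hg i).comp (T.mp v).measurable

theorem measurable_modelShift (v : Fin ℓ → ℤ) :
    Measurable (modelShift (κ := κ) v) := by
  refine measurable_pi_lambda _ fun i => measurable_pi_lambda _ fun w => ?_
  exact (measurable_pi_apply _).comp (measurable_pi_apply _)

/-- The model action. -/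
noncomputable def modelAction (hg : ∀ i, Measurable (g i)) :
    MPAction (Fin ℓ → ℤ) (κ → (Fin ℓ → ℤ) → ℂ) (Measure.map (modelMap T g) μ) where
  T := modelShift
  T_zero ξ := by
    funext i w
    simp [modelShift]
  T_add v w ξ := by
    funext i u
    simp only [modelShift]
    rw [add_assoc]
  mp v := by
    refine ⟨measurable_modelShift v, ?_⟩
    have h1 := measurable_modelMap T g hg
    rw [Measure.map_map (measurable_modelShift v) h1]
    have h2 : modelShift v ∘ modelMap T g = modelMap T g ∘ T.T v := by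
      funext x
      exact (modelMap_T T g v x).symm
    rw [h2, ← Measure.map_map h1 (T.mp v).measurable, (T.mp v).map_eq]

end Model

/-- Reduction to a system in `Type` with bounded measurable functions. -/
theorem reduce {ℓ m : ℕ} {X : Type*} [MeasurableSpace X] {μ : Measure X}
    [IsProbabilityMeasure μ] (T : MPAction (Fin ℓ → ℤ) X μ) (f₀ : X → ℂ) (f : Fin m → X → ℂ)
    (hf₀ : MemLp f₀ ⊤ μ) (hf : ∀ i, MemLp (f i) ⊤ μ) :
    ∃ (X' : Type) (_ : MeasurableSpace X') (μ' : Measure X') (_ : IsProbabilityMeasure μ')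
      (T' : MPAction (Fin ℓ → ℤ) X' μ') (f₀' : X' → ℂ) (f' : Fin m → X' → ℂ) (C : ℝ),
      Measurable f₀' ∧ (∀ i, Measurable (f' i)) ∧ (∀ x, ‖f₀' x‖ ≤ C) ∧ (∀ i x, ‖f' i x‖ ≤ C) ∧
      ∀ q n, multicorr T q f₀ f n = multicorr T' q f₀' f' n := by
  obtain ⟨g₀, C₀, hC₀, hg₀, hfg₀, hb₀⟩ := exists_rep hf₀
  choose g₁ C₁ hC₁ hg₁ hfg₁ hb₁ using fun i => exists_rep (hf i)
  set C : ℝ := C₀ + ∑ i, C₁ i with hC
  have hsum : 0 ≤ ∑ i, C₁ i := Finset.sum_nonneg fun i _ => hC₁ i
  have hCnn : 0 ≤ C := by linarith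
  let g : Option (Fin m) → X → ℂ := fun o => o.elim g₀ g₁
  have hg : ∀ o, Measurable (g o) := by
    rintro (_ | i)
    · exact hg₀
    · exact hg₁ i
  have hgb : ∀ o x, ‖g o x‖ ≤ C := by
    rintro (_ | i) x
    · exact (hb₀ x).trans (by linarith)
    · have := Finset.single_le_sum (f := C₁) (fun i _ => hC₁ i) (Finset.mem_univ i)
      exact (hb₁ i x).trans (by linarith)
  have hmm := measurable_modelMap T g hg
  let φ : Option (Fin m) → (Option (Fin m) → (Fin ℓ → ℤ) → ℂ) → ℂ :=
    fun o ξ => clamp C (ξ o 0)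
  have hφ : ∀ o, Measurable (φ o) := fun o =>
    (measurable_clamp C).comp ((measurable_pi_apply _).comp (measurable_pi_apply o))
  have hφπ : ∀ o x, φ o (modelMap T g x) = g o x := by
    intro o x
    simp only [φ, modelMap]
    rw [T.T_zero, clamp_of_le (hgb o x)]
  refine ⟨Option (Fin m) → (Fin ℓ → ℤ) → ℂ, inferInstance, Measure.map (modelMap T g) μ,
    Measure.isProbabilityMeasure_map hmm.aemeasurable, modelAction T g hg, φ none,
    fun i => φ (some i), C, hφ _, fun i => hφ _, fun x => norm_clamp_le hCnn _,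
    fun i x => norm_clamp_le hCnn _, fun q n => ?_⟩
  rw [multicorr, multicorr]
  set v : Fin m → Fin ℓ → ℤ := fun i j => ⌊(q i j).eval (n : ℝ)⌋ with hv
  have hms : Measurable fun ξ : Option (Fin m) → (Fin ℓ → ℤ) → ℂ =>
      φ none ξ * ∏ i, φ (some i) ((modelAction T g hg).T (v i) ξ) := by
    refine (hφ none).mul (Finset.measurable_fun_prod _ fun i _ => ?_)
    exact (hφ (some i)).comp ((modelAction T g hg).mp (v i)).measurable
  rw [integral_map hmm.aemeasurable hms.aestronglyMeasurable]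
  refine integral_congr_ae ?_
  have h1 : ∀ᵐ x ∂μ, ∀ i, f i (T.T (v i) x) = g₁ i (T.T (v i) x) := by
    rw [ae_all_iff]
    intro i
    exact (T.mp (v i)).quasiMeasurePreserving.ae_eq_comp (hfg₁ i)
  filter_upwards [hfg₀, h1] with x hx0 hx1
  have h2 : ∀ i, φ (some i) ((modelAction T g hg).T (v i) (modelMap T g x)) =
      g₁ i (T.T (v i) x) := by
    intro i
    have h3 : (modelAction T g hg).T (v i) (modelMap T g x) = modelMap T g (T.T (v i) x) :=
      (modelMap_T T g (v i) x).symm
    rw [h3, hφπ]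
    rfl
  rw [hx0, hφπ]
  congr 1
  refine Finset.prod_congr rfl fun i _ => ?_
  rw [h2, hx1]

end MP_e326dc_an
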