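import Pool.Agent.Lib.MP_e326dc_an.G.Riemann
import Pool.Agent.Lib.MP_e326dc_an.G.Reduce
import Pool.Agent.Lib.MP_e326dc_an.G.PolySys

set_option autoImplicit false

/-!
MP_e326dc_an, part G6: the final assembly, from the structure theorem for the correlations (`IZ`),
the joint systems (`IJ`) and the nilfactors (`IN`).
-/

namespace MP_e326dc_an

open MeasureTheory Filter Topology
open scoped ENNReal ContDiff Manifold

/-- Interface: the structure theorem for correlations along polynomial maps. -/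
def IZ : Prop :=
  ∀ (A : Type) [AddCommGroup A] (Ω : Type) [MeasurableSpace Ω] (μ : Measure Ω)
    [IsProbabilityMeasure μ] (T : MPAction A Ω μ) (d m : ℕ) (p : Fin m → ℤ → A),
    (∀ i, PolyLE d (p i)) → ∀ (f₀ : Ω → ℂ) (f : Fin m → Ω → ℂ) (C : ℝ), Measurable f₀ →
    (∀ i, Measurable (f i)) → (∀ x, ‖f₀ x‖ ≤ C) → (∀ i x, ‖f i x‖ ≤ C) →
    ∃ s : ℕ, OrdNull s fun n : ℤ => ∫ x, f₀ x * ∏ i, f i (T.T (p i n) x) ∂μ

/-- Interface: joint systems. -/
def IJ : Prop :=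
  ∀ (κ : Type) [Countable κ] (s : ℕ) (φ : κ → ℤ → ℂ), (∀ k, OrdNull s (φ k)) →
    ∃ (P : DSys) (_ : TopologicalSpace.MetrizableSpace P.X) (_ : P.Ord s) (z : P.X)
      (F : κ → C(P.X, ℂ)), ∀ k, Null (fun n : ℤ => φ k n - F k ((P.T ^ n) z))

/-- Interface: nilfactors. -/
def IN : Prop :=
  ∀ (P : DSys) (_ : TopologicalSpace.MetrizableSpace P.X) (s : ℕ) (_ : P.Ord s) (z : P.X)
    (a b : ℕ) (F : Fin a → C(P.X, ℂ)) (p : Fin b → C(P.X, UnitAddCircle)),
    (∀ i, ∃ d, ∀ x, PolyLE d (fun n : ℤ => p i ((P.T ^ n) x))) → ∀ ε : ℝ, 0 < ε →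
    ∃ (S : NilSystem) (π : P.X → S.Y), Continuous π ∧ Function.Surjective π ∧
      (∀ x, π (P.T x) = S.g • π x) ∧ S.y = π z ∧
      ∃ (F' : Fin a → C(S.Y, ℂ)) (p' : Fin b → C(S.Y, UnitAddCircle)),
        (∀ i x, ‖F i x - F' i (π x)‖ ≤ ε) ∧ ∀ i x, p i x = p' i (π x)

theorem DSys.Ord.mono_aux {P : DSys} {s s' : ℕ} (h : P.Ord s) (hs : s ≤ s') : P.Ord s' :=
  ⟨h.ne, h.min, h.uniq.mono hs⟩

theorem norm_susp₀_le {ℓ : ℕ} {X : Type*} {f₀ : X → ℂ} {C : ℝ} (hC : ∀ x, ‖f₀ x‖ ≤ C)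
    (p : (Fin ℓ → UnitAddCircle) × X) : ‖susp₀ f₀ p‖ ≤ 2 ^ ℓ * C := by
  rw [susp₀, norm_mul]
  have hC0 : 0 ≤ C := (norm_nonneg _).trans (hC p.2)
  refine mul_le_mul ?_ (hC _) (norm_nonneg _) (by positivity)
  by_cases h : p.1 ∈ halfCube ℓ
  · rw [Set.indicator_of_mem h, norm_pow]
    simp
  · rw [Set.indicator_of_notMem h, norm_zero]
    positivity

theorem measurable_susp₀ {ℓ : ℕ} {X : Type*} [MeasurableSpace X] {f₀ : X → ℂ}
    (hf : Measurable f₀) : Measurable (susp₀ (ℓ := ℓ) f₀) := by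
  refine Measurable.mul ?_ (hf.comp measurable_snd)
  exact (measurable_const.indicator measurableSet_halfCube).comp measurable_fst

/-- The correlations of the suspension are of finite order up to a null sequence. -/
theorem scorr_ordNull (hZ : IZ) {ℓ m : ℕ} {X : Type} [MeasurableSpace X] {μ : Measure X}
    [IsProbabilityMeasure μ] (T : MPAction (Fin ℓ → ℤ) X μ) (q : Fin m → Fin ℓ → Polynomial ℝ)
    (f₀ : X → ℂ) (f : Fin m → X → ℂ) (C : ℝ) (hf₀ : Measurable f₀) (hf : ∀ i, Measurable (f i))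
    (hC₀ : ∀ x, ‖f₀ x‖ ≤ C) (hC : ∀ i x, ‖f i x‖ ≤ C) (d : ℕ)
    (hd : ∀ i j, (q i j).natDegree ≤ d) (b : Fin m → Fin ℓ → Bool) :
    ∃ s : ℕ, OrdNull s (scorr T q f₀ f b) := by
  have hX : Nonempty X := by
    by_contra h
    rw [not_nonempty_iff] at h
    have h1 : μ Set.univ = 0 := by
      rw [Set.eq_empty_of_isEmpty (Set.univ : Set X), measure_empty]
    rw [measure_univ] at h1
    exact one_ne_zero h1
  have hC0 : 0 ≤ C := (norm_nonneg _).trans (hC₀ (Classical.choice hX))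
  have h1 : IsProbabilityMeasure (volume : Measure UnitAddCircle) := ⟨UnitAddCircle.measure_univ⟩
  have h2 : IsProbabilityMeasure (volume : Measure (Fin ℓ → UnitAddCircle)) :=
    inferInstanceAs (IsProbabilityMeasure (Measure.pi fun _ : Fin ℓ => (volume : Measure UnitAddCircle)))
  obtain ⟨s, hs⟩ := hZ (Fin ℓ → ℝ) ((Fin ℓ → UnitAddCircle) × X)
    ((volume : Measure (Fin ℓ → UnitAddCircle)).prod μ) (susp T) d m (fun i => rr q b i)
    (polyLE_rr q b d hd) (susp₀ f₀) (fun i p => f i p.2) (2 ^ ℓ * C) (measurable_susp₀ hf₀)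
    (fun i => (hf i).comp measurable_snd) (norm_susp₀_le hC₀) (fun i p => (hC i p.2).trans (by
      have h1 : (1 : ℝ) ≤ 2 ^ ℓ := one_le_pow₀ (by norm_num)
      nlinarith))
  exact ⟨s, hs⟩

/-- The final data on one minimal system of finite order. -/
theorem exists_system (hZ : IZ) (hJ : IJ) {ℓ m : ℕ} {X : Type} [MeasurableSpace X]
    {μ : Measure X} [IsProbabilityMeasure μ] (T : MPAction (Fin ℓ → ℤ) X μ)
    (q : Fin m → Fin ℓ → Polynomial ℝ) (f₀ : X → ℂ) (f : Fin m → X → ℂ) (C : ℝ)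
    (hf₀ : Measurable f₀) (hf : ∀ i, Measurable (f i)) (hC₀ : ∀ x, ‖f₀ x‖ ≤ C)
    (hC : ∀ i x, ‖f i x‖ ≤ C) (d : ℕ) (hd : ∀ i j, (q i j).natDegree ≤ d) :
    ∃ (Q : DSys) (_ : TopologicalSpace.MetrizableSpace Q.X) (s : ℕ) (_ : Q.Ord s) (w : Q.X)
      (F : (Fin m → Fin ℓ → Bool) → C(Q.X, ℂ)) (p : Fin m × Fin ℓ → C(Q.X, UnitAddCircle)),
      (∀ b, Null fun n : ℤ => scorr T q f₀ f b n - F b ((Q.T ^ n) w)) ∧
      (∀ k x, PolyLE d fun n : ℤ => p k ((Q.T ^ n) x)) ∧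
      ∀ (k : Fin m × Fin ℓ) (n : ℤ),
        (((q k.1 k.2).eval (n : ℝ) : ℝ) : UnitAddCircle) = p k ((Q.T ^ n) w) := by
  classical
  choose s hs using scorr_ordNull hZ T q f₀ f C hf₀ hf hC₀ hC d hd
  set s₁ : ℕ := max d (Finset.univ.sup s) with hs₁
  have hs' : ∀ b, OrdNull s₁ (scorr T q f₀ f b) := by
    intro b
    obtain ⟨hb, ψ, ⟨P, hPm, hP, z, F, hF⟩, hN⟩ := hs b
    refine ⟨hb, ψ, ⟨P, hPm, hP.mono_aux ?_, z, F, hF⟩, hN⟩
    exact (Finset.le_sup (f := s) (Finset.mem_univ b)).trans (le_max_right _ _)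
  obtain ⟨P₀, hP₀m, hP₀, z₀, F₀, hF₀⟩ := hJ _ s₁ (fun b => scorr T q f₀ f b) hs'
  have hpoly : ∀ k : Fin m × Fin ℓ, ∃ (P : DSys) (_ : TopologicalSpace.MetrizableSpace P.X)
      (_ : P.Ord d) (z : P.X) (p : C(P.X, UnitAddCircle)),
      (∀ n : ℤ, (((q k.1 k.2).eval (n : ℝ) : ℝ) : UnitAddCircle) = p ((P.T ^ n) z)) ∧
        ∀ w : P.X, PolyLE d fun n : ℤ => p ((P.T ^ n) w) := fun k =>
    exists_polySys d _ (polyLE_circle (q k.1 k.2) d (hd k.1 k.2))
  choose P hPm hP z p hpz hpl using hpoly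
  set PP : Option (Fin m × Fin ℓ) → DSys := fun o => o.elim P₀ P with hPP
  have hPPo : ∀ o, (PP o).Ord s₁ := by
    rintro (_ | k)
    · exact hP₀
    · exact (hP k).mono_aux (le_max_left _ _)
  have hPPm : ∀ o, TopologicalSpace.MetrizableSpace (PP o).X := by
    rintro (_ | k)
    · exact hP₀m
    · exact hPm k
  let zz : ∀ o, (PP o).X := fun o => match o with
    | none => z₀
    | some k => z k
  obtain ⟨Q, hQ, w, π, hw, hm⟩ := exists_joint PP hPPo zz
  have hπz : ∀ (o : Option (Fin m × Fin ℓ)) (n : ℤ) (x : Q.X),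
      (π o).π ((Q.T ^ n) x) = ((PP o).T ^ n) ((π o).π x) := fun o n x =>
    equi_zpow (π o).equi n x
  refine ⟨Q, hm hPPm, s₁, hQ, w, fun b => (F₀ b).comp ⟨(π none).π, (π none).cont⟩,
    fun k => (p k).comp ⟨(π (some k)).π, (π (some k)).cont⟩, fun b => ?_, fun k x => ?_,
    fun k n => ?_⟩
  · refine (congrArg Null (funext fun n => ?_)).mp (hF₀ b)
    have h1 : (π none).π ((Q.T ^ n) w) = (P₀.T ^ n) z₀ := by
      rw [hπz none n w, hw none]
      rfl
    show scorr T q f₀ f b n - F₀ b ((P₀.T ^ n) z₀) = _ - F₀ b ((π none).π ((Q.T ^ n) w))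
    rw [h1]
  · refine (congrArg (PolyLE d) (funext fun n => ?_)).mp (hpl k ((π (some k)).π x))
    show p k (((P k).T ^ n) ((π (some k)).π x)) = p k ((π (some k)).π ((Q.T ^ n) x))
    rw [hπz (some k) n x]
    rfl
  · have h1 : (π (some k)).π ((Q.T ^ n) w) = ((P k).T ^ n) (z k) := by
      rw [hπz (some k) n w, hw (some k)]
      rfl
    show _ = p k ((π (some k)).π ((Q.T ^ n) w))
    rw [h1]
    exact hpz k n

/-- The functions of the final data on the nilmanifold give Riemann integrable nilsequences. -/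
theorem isRNil_of_system (hN : IN) {ℓ m : ℕ} {Q : DSys}
    (hQm : TopologicalSpace.MetrizableSpace Q.X) {s : ℕ} (hQ : Q.Ord s) (w : Q.X)
    (F : (Fin m → Fin ℓ → Bool) → C(Q.X, ℂ)) (p : Fin m × Fin ℓ → C(Q.X, UnitAddCircle)) (d : ℕ)
    (hp : ∀ k x, PolyLE d fun n : ℤ => p k ((Q.T ^ n) x)) :
    IsRNil fun n : ℕ => ∑ b : Fin m → Fin ℓ → Bool,
      (∏ k : Fin m × Fin ℓ, halfInd (b k.1 k.2) (p k ((Q.T ^ n) w))) * F b ((Q.T ^ n) w) := by
  classical
  intro ε hε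
  let eB := Fintype.equivFin (Fin m → Fin ℓ → Bool)
  let eJ := Fintype.equivFin (Fin m × Fin ℓ)
  set N : ℝ := (Fintype.card (Fin m → Fin ℓ → Bool) : ℝ) with hNdef
  have hNnn : 0 ≤ N := Nat.cast_nonneg _
  obtain ⟨S, π, hπc, hπs, hπe, hπy, F', p', hF', hp'⟩ := hN Q hQm s hQ w _ _
    (fun i => F (eB.symm i)) (fun i => p (eJ.symm i)) (fun i => ⟨d, fun x => hp _ x⟩)
    (ε / (2 * (N + 1))) (by positivity)
  have hFb : ∀ b x, ‖F b x - F' (eB b) (π x)‖ ≤ ε / (2 * (N + 1)) := by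
    intro b x
    have h1 := hF' (eB b) x
    simpa only [Equiv.symm_apply_apply] using h1
  have hpk : ∀ k x, p k x = p' (eJ k) (π x) := by
    intro k x
    have h1 := hp' (eJ k) x
    simpa only [Equiv.symm_apply_apply] using h1
  -- iterates
  have hπn : ∀ (n : ℕ) (x : Q.X), π ((Q.T ^ n) x) = (fun z : S.Y => S.g • z)^[n] (π x) := by
    intro n
    induction n with
    | zero => intro x; rfl
    | succ n ih =>
      intro x
      rw [Function.iterate_succ_apply', ← ih x, ← hπe]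
      congr 1
      rw [pow_succ']
      rfl
  have hπn2 : ∀ (n : ℕ) (x : Q.X), π ((Q.T ^ n) x) = S.g ^ n • π x := by
    intro n
    induction n with
    | zero => intro x; simp
    | succ n ih =>
      intro x
      rw [pow_succ' S.g, mul_smul, ← ih x, ← hπe]
      congr 1
      rw [pow_succ']
      rfl
  have hmin : ∀ y : S.Y, Dense (Set.range fun n : ℕ => (fun z : S.Y => S.g • z)^[n] y) := by
    intro y
    obtain ⟨x, rfl⟩ := hπs y
    have h1 := hπs.denseRange.dense_image hπc (hQ.min.forward x)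
    refine h1.mono ?_
    rintro _ ⟨_, ⟨n, rfl⟩, rfl⟩
    exact ⟨n, (hπn n x).symm⟩
  have hDD : ∀ (k : Fin m × Fin ℓ) (y : S.Y),
      (DD (fun z : S.Y => S.g • z))^[d + 1] (p' (eJ k)) y = 0 := by
    intro k y
    obtain ⟨x, rfl⟩ := hπs y
    have h1 := DD_zero_of_polyLE (fun z : S.Y => S.g • z) (p' (eJ k)) d
      (fun n : ℤ => π ((Q.T ^ n) x)) (fun n => by
        rw [← hπe]
        congr 1
        rw [add_comm, zpow_add_apply, zpow_one]) (by
        refine (congrArg (PolyLE d) (funext fun n => ?_)).mp (hp k x)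
        exact hpk k _)
    simpa using h1
  refine ⟨S, fun y => ∑ b : Fin m → Fin ℓ → Bool,
    (∏ k : Fin m × Fin ℓ, halfInd (b k.1 k.2) (p' (eJ k) y)) * F' (eB b) y, ?_, ?_, ?_⟩
  · intro y
    obtain ⟨x, rfl⟩ := hπs y
    have h1 := hπs.denseRange.dense_image hπc (hQ.min.forward x)
    refine h1.mono ?_
    rintro _ ⟨_, ⟨n, rfl⟩, rfl⟩
    exact ⟨n, (hπn2 n x).symm⟩
  · exact riemannIntegrable_sum S hmin (fun (b : Fin m → Fin ℓ → Bool) (k : Fin m × Fin ℓ) =>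
      b k.1 k.2) (fun b => F' (eB b)) (fun k => p' (eJ k)) d hDD
  · intro n
    have h1 : S.g ^ n • S.y = π ((Q.T ^ n) w) := by rw [hπy, hπn2]
    simp only [h1]
    rw [← Finset.sum_sub_distrib]
    have h2 : ∀ b : Fin m → Fin ℓ → Bool,
        (∏ k : Fin m × Fin ℓ, halfInd (b k.1 k.2) (p k ((Q.T ^ n) w))) * F b ((Q.T ^ n) w) -
        (∏ k : Fin m × Fin ℓ, halfInd (b k.1 k.2) (p' (eJ k) (π ((Q.T ^ n) w)))) *
          F' (eB b) (π ((Q.T ^ n) w)) =
        (∏ k : Fin m × Fin ℓ, halfInd (b k.1 k.2) (p k ((Q.T ^ n) w))) *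
          (F b ((Q.T ^ n) w) - F' (eB b) (π ((Q.T ^ n) w))) := by
      intro b
      have h3 : ∀ k, p' (eJ k) (π ((Q.T ^ n) w)) = p k ((Q.T ^ n) w) := fun k => (hpk k _).symm
      simp only [h3]
      ring
    rw [Finset.sum_congr rfl fun b _ => h2 b]
    refine lt_of_le_of_lt (norm_sum_le _ _) ?_
    refine lt_of_le_of_lt (Finset.sum_le_sum (g := fun _ => ε / (2 * (N + 1))) fun b _ => ?_) ?_
    · rw [norm_mul]
      calc _ ≤ 1 * (ε / (2 * (N + 1))) :=
            mul_le_mul (norm_prod_halfInd_le (fun k : Fin m × Fin ℓ => b k.1 k.2) _) (hFb b _)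
              (norm_nonneg _) zero_le_one
        _ = _ := one_mul _
    · rw [Finset.sum_const, Finset.card_univ, nsmul_eq_mul, ← hNdef]
      have h4 : N * (ε / (2 * (N + 1))) = ε * (N / (2 * (N + 1))) := by ring
      rw [h4]
      have h5 : N / (2 * (N + 1)) < 1 := by
        rw [div_lt_one (by positivity)]
        linarith
      nlinarith

theorem Null.of_sum {B : Type*} [Fintype B] {f : B → ℤ → ℂ} {g : ℤ → ℂ}
    (hf : ∀ b, Null (f b)) (hg : ∀ n, ‖g n‖ ≤ ∑ b, ‖f b n‖) : Null g := by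
  classical
  rcases isEmpty_or_nonempty B with hB | hB
  · intro ε hε
    refine ⟨0, fun M L _ => ?_⟩
    have h1 : ∀ n, ‖g n‖ = 0 := fun n => le_antisymm (by simpa using hg n) (norm_nonneg _)
    simp only [avg, h1, Finset.sum_const_zero, smul_zero, sub_zero, norm_zero]
    exact hε.le
  have hcard : (0 : ℝ) < Fintype.card B := by exact_mod_cast Fintype.card_pos
  intro ε hε
  choose N hN using fun b => hf b (ε / Fintype.card B) (by positivity)
  refine ⟨Finset.univ.sup N, fun M L hL => ?_⟩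
  have h1 : ∀ b, avg (win M L) (fun n => ‖f b n‖) ≤ ε / Fintype.card B := by
    intro b
    have h2 := hN b M L ((Finset.le_sup (f := N) (Finset.mem_univ b)).trans hL)
    rw [sub_zero, Real.norm_eq_abs] at h2
    exact (abs_le.mp h2).2
  have h3 : avg (win M L) (fun n => ‖g n‖) ≤ ∑ b, avg (win M L) (fun n => ‖f b n‖) := by
    simp only [avg, smul_eq_mul]
    rw [← Finset.mul_sum, Finset.sum_comm]
    exact mul_le_mul_of_nonneg_left (Finset.sum_le_sum fun n _ => hg n)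
      (inv_nonneg.mpr (Nat.cast_nonneg _))
  have h4 : 0 ≤ avg (win M L) (fun n => ‖g n‖) := by
    simp only [avg, smul_eq_mul]
    exact mul_nonneg (inv_nonneg.mpr (Nat.cast_nonneg _))
      (Finset.sum_nonneg fun n _ => norm_nonneg _)
  rw [sub_zero, Real.norm_eq_abs, abs_of_nonneg h4]
  refine h3.trans ((Finset.sum_le_sum fun b _ => h1 b).trans ?_)
  rw [Finset.sum_const, Finset.card_univ, nsmul_eq_mul]
  exact (mul_div_cancel₀ ε hcard.ne').le

/-- The final theorem, from the interfaces. -/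
theorem final_of (hZ : IZ) (hJ : IJ) (hN : IN) {ℓ m : ℕ} {X : Type*} [MeasurableSpace X]
    {μ : Measure X} [IsProbabilityMeasure μ] (T : MPAction (Fin ℓ → ℤ) X μ)
    (q : Fin m → Fin ℓ → Polynomial ℝ) (f₀ : X → ℂ) (f : Fin m → X → ℂ) (hf₀ : MemLp f₀ ⊤ μ)
    (hf : ∀ i, MemLp (f i) ⊤ μ) :
    ∃ φ : ℕ → ℂ, IsRNil φ ∧ uNorm (fun n => multicorr T q f₀ f n - φ n) = 0 := by
  classical
  obtain ⟨X', _, μ', hμ', T', f₀', f', C, hf₀', hf', hC₀, hC, hcorr⟩ := reduce T f₀ f hf₀ hf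
  set d : ℕ := Finset.univ.sup fun k : Fin m × Fin ℓ => (q k.1 k.2).natDegree with hddef
  have hd : ∀ i j, (q i j).natDegree ≤ d := fun i j =>
    Finset.le_sup (f := fun k : Fin m × Fin ℓ => (q k.1 k.2).natDegree) (Finset.mem_univ (i, j))
  obtain ⟨Q, hQm, s, hQ, w, F, p, hF, hpl, hpq⟩ :=
    exists_system hZ hJ T' q f₀' f' C hf₀' hf' hC₀ hC d hd
  refine ⟨_, isRNil_of_system hN hQm hQ w F p d hpl, ?_⟩
  have h1 : Null fun n : ℤ => mcorrZ T' q f₀' f' n - ∑ b : Fin m → Fin ℓ → Bool,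
      (∏ k : Fin m × Fin ℓ, halfInd (b k.1 k.2) (p k ((Q.T ^ n) w))) * F b ((Q.T ^ n) w) := by
    refine Null.of_sum hF fun n => ?_
    rw [mcorrZ_eq_sum, ← Finset.sum_sub_distrib]
    refine (norm_sum_le _ _).trans (Finset.sum_le_sum fun b _ => ?_)
    have h2 : (∏ i, ∏ j, halfInd (b i j) (((q i j).eval (n : ℝ) : ℝ) : UnitAddCircle)) =
        ∏ k : Fin m × Fin ℓ, halfInd (b k.1 k.2) (p k ((Q.T ^ n) w)) := by
      rw [← Finset.univ_product_univ, Finset.prod_product]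
      refine Finset.prod_congr rfl fun i _ => Finset.prod_congr rfl fun j _ => ?_
      rw [← hpq (i, j) n]
    rw [h2, ← mul_sub, norm_mul]
    calc _ ≤ 1 * ‖scorr T' q f₀' f' b n - F b ((Q.T ^ n) w)‖ :=
          mul_le_mul_of_nonneg_right
            (norm_prod_halfInd_le (fun k : Fin m × Fin ℓ => b k.1 k.2) _) (norm_nonneg _)
      _ = _ := one_mul _
  have h2 := uNorm_eq_zero h1
  refine (congrArg uNorm (funext fun n => ?_)).trans h2
  rw [hcorr, multicorr_eq_mcorrZ]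
  simp only [zpow_natCast]

end MP_e326dc_an
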