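import Pool.Agent.Lib.MP_e326dc_an.G.Split

set_option autoImplicit false

/-!
MP_e326dc_an, part G4: on a minimal system, the functions `halfInd b ∘ u` of a polynomial circle
coordinate `u` have discontinuity sets which are null for the invariant probability measures.
-/

namespace MP_e326dc_an

open MeasureTheory Filter Topology
open scoped ENNReal

section DD

variable {Y A : Type*} [AddCommGroup A]

/-- The difference operator along `τ`. -/
def DD (τ : Y → Y) (u : Y → A) : Y → A := fun y => u (τ y) - u y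

theorem DD_comp (τ : Y → Y) (u : Y → A) : DD τ (fun y => u (τ y)) = fun y => DD τ u (τ y) := rfl

theorem DD_iter_comp (τ : Y → Y) (j : ℕ) (u : Y → A) :
    (DD τ)^[j] (fun y => u (τ y)) = fun y => (DD τ)^[j] u (τ y) := by
  induction j generalizing u with
  | zero => rfl
  | succ j ih =>
    rw [Function.iterate_succ_apply, DD_comp, ih (DD τ u), Function.iterate_succ_apply]

theorem DD_iter_comp_iter (τ : Y → Y) (j h : ℕ) (u : Y → A) :
    (DD τ)^[j] (fun y => u (τ^[h] y)) = fun y => (DD τ)^[j] u (τ^[h] y) := by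
  induction h generalizing u with
  | zero => rfl
  | succ h ih =>
    have h1 : (fun y => u (τ^[h + 1] y)) = fun y => (fun z => u (τ z)) (τ^[h] y) := by
      funext y
      rw [Function.iterate_succ_apply']
    rw [h1, ih (fun z => u (τ z)), DD_iter_comp]
    funext y
    rw [Function.iterate_succ_apply']

theorem DD_iter_sub (τ : Y → Y) (j : ℕ) (u v : Y → A) :
    (DD τ)^[j] (fun y => u y - v y) = fun y => (DD τ)^[j] u y - (DD τ)^[j] v y := by
  induction j generalizing u v with
  | zero => rfl
  | succ j ih =>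
    have h1 : DD τ (fun y => u y - v y) = fun y => DD τ u y - DD τ v y := by
      funext y
      simp only [DD]
      abel
    rw [Function.iterate_succ_apply, h1, ih, Function.iterate_succ_apply,
      Function.iterate_succ_apply]

theorem DD_iter_nsmul (τ : Y → Y) (j k : ℕ) (u : Y → A) :
    (DD τ)^[j] (fun y => k • u y) = fun y => k • (DD τ)^[j] u y := by
  induction j generalizing u with
  | zero => rfl
  | succ j ih =>
    have h1 : DD τ (fun y => k • u y) = fun y => k • DD τ u y := by
      funext y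
      simp only [DD]
      rw [smul_sub]
    rw [Function.iterate_succ_apply, h1, ih, Function.iterate_succ_apply]

/-- If `DD^[j+1] u = 0`, then `DD^[j] (u ∘ τ^h - u) = h • DD^[j+1]...`: here for a constant
`DD^[j+1] u`. -/
theorem DD_iter_shift (τ : Y → Y) (j h : ℕ) (u : Y → A) (a : A)
    (ha : ∀ y, (DD τ)^[j + 1] u y = a) :
    ∀ y, (DD τ)^[j] (fun y => u (τ^[h] y) - u y) y = h • a := by
  intro y
  rw [DD_iter_sub, DD_iter_comp_iter]
  simp only
  have h1 : ∀ z, (DD τ)^[j] u (τ z) - (DD τ)^[j] u z = a := by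
    intro z
    rw [← ha z, Function.iterate_succ_apply']
    rfl
  induction h with
  | zero => simp
  | succ h ih =>
    rw [Function.iterate_succ_apply', add_smul, one_smul, ← ih, ← h1 (τ^[h] y)]
    abel

end DD

section Minimal

variable {Y : Type*} [TopologicalSpace Y] {A : Type*} [AddCommGroup A] [TopologicalSpace A]
  [IsTopologicalAddGroup A] [T2Space A] {τ : Y → Y}

theorem continuous_DD (hτ : Continuous τ) {u : Y → A} (hu : Continuous u) :
    Continuous (DD τ u) := (hu.comp hτ).sub hu

theorem continuous_DD_iter (hτ : Continuous τ) {u : Y → A} (hu : Continuous u) (j : ℕ) :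
    Continuous ((DD τ)^[j] u) := by
  induction j with
  | zero => exact hu
  | succ j ih =>
    rw [Function.iterate_succ_apply']
    exact continuous_DD hτ ih

/-- Invariant continuous functions are constant. -/
theorem const_of_DD_eq_zero (hmin : ∀ y : Y, Dense (Set.range fun n : ℕ => τ^[n] y)) {u : Y → A}
    (hu : Continuous u) (h0 : ∀ y, DD τ u y = 0) (y y' : Y) : u y = u y' := by
  have h1 : ∀ n : ℕ, u (τ^[n] y') = u y' := by
    intro n
    induction n with
    | zero => rfl
    | succ n ih =>
      rw [Function.iterate_succ_apply', ← ih]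
      exact sub_eq_zero.mp (h0 _)
  have h2 : u = fun _ => u y' := by
    refine Continuous.ext_on (hmin y') hu continuous_const ?_
    rintro _ ⟨n, rfl⟩
    exact h1 n
  rw [h2]

/-- The return lemma. -/
theorem return_torsion [MeasurableSpace Y] [BorelSpace Y] (hτ : Continuous τ)
    (hmin : ∀ y : Y, Dense (Set.range fun n : ℕ => τ^[n] y)) (ν : Measure Y) [IsFiniteMeasure ν]
    (hν : MeasurePreserving τ ν ν) (j : ℕ) : ∀ u : Y → A, Continuous u → ∀ a : A,
      (∀ y, (DD τ)^[j] u y = a) → ν {y | u y = 0} ≠ 0 → ∃ k : ℕ, 0 < k ∧ k • a = 0 := by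
  induction j with
  | zero =>
    intro u _ a ha hne
    obtain ⟨y, hy⟩ : {y | u y = 0}.Nonempty := by
      by_contra h
      rw [Set.not_nonempty_iff_eq_empty] at h
      rw [h, measure_empty] at hne
      exact hne rfl
    refine ⟨1, one_pos, ?_⟩
    rw [one_smul, ← ha y]
    exact hy
  | succ j ih =>
    intro u hu a ha hne
    have hcl : IsClosed {y | u y = 0} := isClosed_eq hu continuous_const
    obtain ⟨h, hh, hne2⟩ := hν.conservative.exists_gt_measure_inter_ne_zero
      hcl.measurableSet.nullMeasurableSet hne 0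
    obtain ⟨k, hk, hk2⟩ := ih (fun y => u (τ^[h] y) - u y)
      ((hu.comp (hτ.iterate h)).sub hu) (h • a) (DD_iter_shift τ j h u a ha) (by
        intro h0
        refine hne2 (measure_mono_null ?_ h0)
        rintro y ⟨hy1, hy2⟩
        show u (τ^[h] y) - u y = 0
        have hy3 : u (τ^[h] y) = 0 := hy2
        have hy4 : u y = 0 := hy1
        rw [hy3, hy4, sub_zero])
    refine ⟨k * h, Nat.mul_pos hk hh, ?_⟩
    rw [mul_smul, hk2]

/-- The dichotomy. -/
theorem dichotomy (hτ : Continuous τ) (hmin : ∀ y : Y, Dense (Set.range fun n : ℕ => τ^[n] y))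
    (d : ℕ) : ∀ u : Y → A, Continuous u → (∀ y, (DD τ)^[d + 1] u y = 0) →
      (∃ Q : ℕ, 0 < Q ∧ ∀ y y', Q • u y = Q • u y') ∨
      ∃ (Q j : ℕ) (a : A), 0 < Q ∧ (∀ y, (DD τ)^[j] (fun y => Q • u y) y = a) ∧
        ∀ k : ℕ, 0 < k → k • a ≠ 0 := by
  induction d with
  | zero =>
    intro u hu h0
    exact Or.inl ⟨1, one_pos, fun y y' => by
      rw [one_smul, one_smul, const_of_DD_eq_zero hmin hu h0 y y']⟩
  | succ d ih =>
    intro u hu h0
    rcases isEmpty_or_nonempty Y with hY | ⟨⟨y₀⟩⟩
    · exact Or.inl ⟨1, one_pos, fun y => (hY.false y).elim⟩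
    set a : A := (DD τ)^[d + 1] u y₀ with ha
    have hconst : ∀ y, (DD τ)^[d + 1] u y = a := fun y => by
      refine const_of_DD_eq_zero hmin (continuous_DD_iter hτ hu (d + 1)) (fun z => ?_) y y₀
      have := h0 z
      rwa [Function.iterate_succ_apply'] at this
    by_cases htor : ∃ m : ℕ, 0 < m ∧ m • a = 0
    · obtain ⟨m, hm, hma⟩ := htor
      have h1 : ∀ y, (DD τ)^[d + 1] (fun y => m • u y) y = 0 := by
        intro y
        rw [DD_iter_nsmul]
        simp only
        rw [hconst, hma]
      rcases ih (fun y => m • u y) ((continuous_nsmul m).comp hu) h1 with ⟨Q, hQ, hQ2⟩ | ⟨Q, j, b, hQ, hQ2, hQ3⟩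
      · refine Or.inl ⟨Q * m, Nat.mul_pos hQ hm, fun y y' => ?_⟩
        rw [mul_smul, mul_smul]
        exact hQ2 y y'
      · refine Or.inr ⟨Q * m, j, b, Nat.mul_pos hQ hm, fun y => ?_, hQ3⟩
        rw [← hQ2 y]
        have h3 : (fun y => (Q * m) • u y) = fun y => Q • m • u y := by
          funext z
          rw [mul_smul]
        rw [h3]
    · refine Or.inr ⟨1, d + 1, a, one_pos, fun y => ?_, fun k hk h => htor ⟨k, hk, h⟩⟩
      rw [← hconst y]
      have h3 : (fun y => 1 • u y) = u := by
        funext z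
        rw [one_smul]
      rw [h3]

end Minimal

/-! ### The indicator functions -/

theorem continuousAt_rep {θ : UnitAddCircle} (h : θ ≠ 0) : ContinuousAt rep θ := by
  have h1 : ContinuousAt (AddCircle.equivIco (1 : ℝ) 0) θ :=
    AddCircle.continuousAt_equivIco (p := (1 : ℝ)) (a := 0) (by simpa using h)
  exact continuous_subtype_val.continuousAt.comp h1

theorem continuousAt_halfInd (b : Bool) {θ : UnitAddCircle} (h : (2 : ℕ) • θ ≠ 0) :
    ContinuousAt (halfInd b) θ := by
  have h0 : θ ≠ 0 := by
    rintro rfl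
    simp at h
  have h1 : rep θ ≠ 1 / 2 := by
    intro hr
    refine h ?_
    rw [← coe_rep θ, hr, ← AddCircle.coe_nsmul]
    have : (2 : ℕ) • (1 / 2 : ℝ) = 1 := by norm_num
    rw [this]
    exact AddCircle.coe_period 1
  have h2 := continuousAt_rep h0
  have h3 : ∀ᶠ θ' in 𝓝 θ, (rep θ' < 1 / 2 ↔ rep θ < 1 / 2) := by
    rcases lt_or_gt_of_ne h1 with hlt | hgt
    · filter_upwards [h2.eventually (gt_mem_nhds hlt)] with θ' hθ'
      exact ⟨fun _ => hlt, fun _ => hθ'⟩
    · filter_upwards [h2.eventually (lt_mem_nhds hgt)] with θ' hθ'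
      exact ⟨fun h => absurd h (not_lt.mpr hθ'.le), fun h => absurd h (not_lt.mpr hgt.le)⟩
  refine ContinuousAt.congr (continuousAt_const (y := halfInd b θ)) ?_
  filter_upwards [h3] with θ' hθ'
  simp only [halfInd, hθ']

theorem finite_torsion_nsmul {Q : ℕ} (hQ : 0 < Q) (c : UnitAddCircle) :
    {θ : UnitAddCircle | Q • θ = Q • c}.Finite := by
  have h1 := AddCircle.finite_torsion (1 : ℝ) hQ
  refine (h1.image fun t => t + c).subset fun θ hθ => ⟨θ - c, ?_, by simp⟩
  show Q • (θ - c) = 0
  rw [smul_sub, sub_eq_zero]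
  exact hθ

/-- The discontinuity sets are null. -/
theorem null_disc {Y : Type*} [TopologicalSpace Y] [MeasurableSpace Y] [BorelSpace Y]
    {τ : Y → Y} (hτ : Continuous τ) (hmin : ∀ y : Y, Dense (Set.range fun n : ℕ => τ^[n] y))
    (d : ℕ) (u : Y → UnitAddCircle) (hu : Continuous u) (h0 : ∀ y, (DD τ)^[d + 1] u y = 0)
    (b : Bool) (ν : Measure Y) [IsFiniteMeasure ν] (hν : MeasurePreserving τ ν ν) :
    ν {y | ¬ ContinuousAt (fun y => halfInd b (u y)) y} = 0 := by
  rcases isEmpty_or_nonempty Y with hY | ⟨⟨y₀⟩⟩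
  · rw [Set.eq_empty_of_isEmpty {y | ¬ ContinuousAt (fun y => halfInd b (u y)) y}, measure_empty]
  rcases dichotomy hτ hmin d u hu h0 with ⟨Q, hQ, hQ2⟩ | ⟨Q, j, a, hQ, ha, hna⟩
  · have h1 : {y | ¬ ContinuousAt (fun y => halfInd b (u y)) y} = ∅ := by
      rw [Set.eq_empty_iff_forall_notMem]
      intro y hy
      refine hy ?_
      have hfin := finite_torsion_nsmul hQ (u y)
      have hfin2 : ({θ : UnitAddCircle | Q • θ = Q • u y} \ {u y}).Finite :=
        hfin.subset Set.sdiff_subset
      have h2 : ∀ᶠ y' in 𝓝 y, u y' ∉ ({θ : UnitAddCircle | Q • θ = Q • u y} \ {u y}) :=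
        hu.continuousAt.eventually (hfin2.isClosed.isOpen_compl.mem_nhds (by simp))
      refine ContinuousAt.congr (continuousAt_const (y := halfInd b (u y))) ?_
      filter_upwards [h2] with y' hy'
      have h3 : u y' = u y := by
        by_contra hne
        exact hy' ⟨hQ2 y' y, hne⟩
      rw [h3]
    rw [h1, measure_empty]
  · by_contra hne
    obtain ⟨k, hk, hka⟩ := return_torsion hτ hmin ν hν j (fun y => (2 * Q) • u y)
      ((continuous_nsmul _).comp hu) (2 • a) (fun y => by
        have h1 : (fun y => (2 * Q) • u y) = fun y => 2 • (fun y => Q • u y) y := by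
          funext z
          rw [mul_smul]
        rw [h1, DD_iter_nsmul]
        simp only
        rw [ha y]) (by
        intro h0'
        refine hne (measure_mono_null (fun y hy => ?_) h0')
        show (2 * Q) • u y = 0
        by_contra hne'
        refine hy ?_
        have h2 : (2 : ℕ) • u y ≠ 0 := by
          intro h
          refine hne' ?_
          rw [mul_comm, mul_smul, h, smul_zero]
        exact ContinuousAt.comp (g := halfInd b) (continuousAt_halfInd b h2) hu.continuousAt)
    exact hna (k * 2) (by omega) (by rw [mul_smul]; exact hka)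

end MP_e326dc_an
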