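import Pool.Agent.Lib.MP_e326dc_an.G.Disc

set_option autoImplicit false

/-!
MP_e326dc_an, part G5: forward orbits, differences along orbits, the seminorm of a null sequence.
-/

namespace MP_e326dc_an

open MeasureTheory Filter Topology
open scoped ENNReal

/-! ### Forward orbits -/

/-- On a compact minimal system the forward orbits are dense. -/
theorem IsMin.forward {X : Type*} [TopologicalSpace X] [CompactSpace X] {T : X ≃ₜ X}
    (hT : IsMin T) (x : X) : Dense (Set.range fun n : ℕ => (T ^ n) x) := by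
  obtain ⟨y, hy⟩ := exists_clusterPt_of_compactSpace (Filter.map (fun n : ℕ => (T ^ n) x) atTop)
  have hy' : MapClusterPt y atTop (fun n : ℕ => (T ^ n) x) := hy
  have h1 : ∀ k : ℤ, (T ^ k) y ∈ closure (Set.range fun n : ℕ => (T ^ n) x) := by
    intro k
    rw [mem_closure_iff]
    intro U hU hyU
    have h2 : (fun z => (T ^ k) z) ⁻¹' U ∈ 𝓝 y :=
      (T ^ k).continuous.continuousAt.preimage_mem_nhds (hU.mem_nhds hyU)
    have h3 := (mapClusterPt_iff_frequently.mp hy') _ h2
    obtain ⟨n, hn1, hn2⟩ := (h3.and_eventually (eventually_ge_atTop k.natAbs)).exists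
    refine ⟨(T ^ k) ((T ^ n) x), hn1, (k + n).toNat, ?_⟩
    have h4 : (T ^ k) ((T ^ n) x) = (T ^ (k + (n : ℤ))) x := by
      rw [zpow_add, zpow_natCast]
      rfl
    have h5 : (((k + n).toNat : ℕ) : ℤ) = k + n := Int.toNat_of_nonneg (by omega)
    show (T ^ (k + n).toNat) x = _
    rw [h4, ← zpow_natCast, h5]
  have h6 : closure (Set.range fun k : ℤ => (T ^ k) y) ⊆
      closure (Set.range fun n : ℕ => (T ^ n) x) := by
    refine closure_minimal ?_ isClosed_closure
    rintro _ ⟨k, rfl⟩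
    exact h1 k
  intro z
  exact h6 (hT y z)

/-! ### Differences along orbits -/

theorem PolyLE.diff_zero {A : Type*} [AddCommGroup A] :
    ∀ (d : ℕ) (x : ℤ → A), PolyLE d x → ∀ n, (fun y : ℤ → A => fun n => y (n + 1) - y n)^[d + 1] x n = 0
  | 0, x, hx => fun n => by
    show x (n + 1) - x n = 0
    rw [hx (n + 1) n, sub_self]
  | d + 1, x, hx => fun n => by
    rw [Function.iterate_succ_apply]
    exact PolyLE.diff_zero d _ (hx 1) n

theorem DD_iter_orbit {Y A : Type*} [AddCommGroup A] (τ : Y → Y) (j : ℕ) :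
    ∀ (u : Y → A) (o : ℤ → Y) (_ : ∀ n, o (n + 1) = τ (o n)) (n : ℤ),
      (DD τ)^[j] u (o n) = (fun y : ℤ → A => fun n => y (n + 1) - y n)^[j] (fun n => u (o n)) n := by
  induction j with
  | zero => intro u o _ n; rfl
  | succ j ih =>
    intro u o ho n
    have h1 : (fun n => DD τ u (o n)) =
        fun n => (fun n => u (o n)) (n + 1) - (fun n => u (o n)) n := by
      funext k
      simp only [DD]
      rw [ho]
    rw [Function.iterate_succ_apply, Function.iterate_succ_apply, ih (DD τ u) o ho n, h1]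

theorem DD_zero_of_polyLE {Y A : Type*} [AddCommGroup A] (τ : Y → Y) (u : Y → A) (d : ℕ)
    (o : ℤ → Y) (ho : ∀ n, o (n + 1) = τ (o n)) (h : PolyLE d fun n => u (o n)) :
    (DD τ)^[d + 1] u (o 0) = 0 := by
  rw [DD_iter_orbit τ (d + 1) u o ho 0]
  exact PolyLE.diff_zero d _ h 0

/-! ### The seminorm of a null sequence -/

theorem uNorm_eq_zero {ψ : ℤ → ℂ} (h : Null ψ) : uNorm (fun n : ℕ => ψ n) = 0 := by
  have h1 : ∀ ε : ℝ, 0 < ε → ∀ᶠ L : ℕ in atTop,
      (⨆ M : ℕ, (∑ n ∈ Finset.Ico M (M + L), ‖ψ n‖ₑ) / L) ≤ ENNReal.ofReal ε := by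
    intro ε hε
    obtain ⟨N, hN⟩ := h ε hε
    filter_upwards [eventually_ge_atTop (max N 1)] with L hL
    have hLN : N ≤ L := (le_max_left _ _).trans hL
    have hL1 : 1 ≤ L := (le_max_right _ _).trans hL
    refine iSup_le fun M => ?_
    have h2 := hN (M : ℤ) L hLN
    rw [avg, sub_zero, win, Int.card_Ico, Real.norm_eq_abs] at h2
    have h3 : ((M : ℤ) + L - M).toNat = L := by omega
    rw [h3, smul_eq_mul] at h2
    have hLpos : (0 : ℝ) < L := by exact_mod_cast hL1
    have h4 : ∑ i ∈ Finset.Ico (M : ℤ) (M + L), ‖ψ i‖ = ∑ n ∈ Finset.Ico M (M + L), ‖ψ n‖ := by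
      symm
      refine Finset.sum_bij (fun n _ => (n : ℤ)) ?_ ?_ ?_ ?_
      · intro n hn
        rw [Finset.mem_Ico] at hn ⊢
        omega
      · intro a _ b _ hab
        exact_mod_cast hab
      · intro b hb
        rw [Finset.mem_Ico] at hb
        refine ⟨b.toNat, ?_, ?_⟩
        · rw [Finset.mem_Ico]
          omega
        · exact Int.toNat_of_nonneg (by omega)
      · intro n _
        rfl
    rw [h4] at h2
    have h5 : ∑ n ∈ Finset.Ico M (M + L), ‖ψ n‖ ≤ ε * L := by
      have h6 := (abs_le.mp h2).2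
      rw [inv_mul_le_iff₀ hLpos] at h6
      linarith
    have h7 : ∑ n ∈ Finset.Ico M (M + L), ‖ψ n‖ₑ =
        ENNReal.ofReal (∑ n ∈ Finset.Ico M (M + L), ‖ψ n‖) := by
      rw [ENNReal.ofReal_sum_of_nonneg fun i _ => norm_nonneg _]
      refine Finset.sum_congr rfl fun n _ => ?_
      rw [ofReal_norm]
    rw [h7]
    refine ENNReal.div_le_of_le_mul ?_
    rw [← ENNReal.ofReal_natCast L, ← ENNReal.ofReal_mul hε.le]
    exact ENNReal.ofReal_le_ofReal h5
  rw [uNorm]
  refine le_antisymm ?_ zero_le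
  refine ENNReal.le_of_forall_pos_le_add fun ε hε _ => ?_
  rw [zero_add]
  have h2 := h1 (ε : ℝ) (by exact_mod_cast hε)
  refine limsup_le_of_le (by isBoundedDefault) ?_
  filter_upwards [h2] with L hL
  rwa [ENNReal.ofReal_coe_nnreal] at hL

end MP_e326dc_an
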