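import Pool.Agent.Lib.MP_e326dc_an.G.Fwd

set_option autoImplicit false

/-!
MP_e326dc_an, part G5: Riemann integrability of the functions on the nilmanifold.
-/

namespace MP_e326dc_an

open MeasureTheory Filter Topology
open scoped ENNReal ContDiff Manifold

theorem NilSystem.continuous_smul (S : NilSystem) : Continuous fun z : S.Y => S.g • z := by
  have h : IsTopologicalGroup S.G := topologicalGroup_of_lieGroup 𝓘(ℝ, S.E) ∞
  exact continuous_const_smul S.g

theorem norm_halfInd_le (b : Bool) (θ : UnitAddCircle) : ‖halfInd b θ‖ ≤ 1 := by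
  rw [halfInd]
  split_ifs <;> simp

theorem norm_prod_halfInd_le {J : Type*} [Fintype J] (β : J → Bool) (θ : J → UnitAddCircle) :
    ‖∏ j, halfInd (β j) (θ j)‖ ≤ 1 := by
  rw [norm_prod]
  exact Finset.prod_le_one (fun j _ => norm_nonneg _) fun j _ => norm_halfInd_le _ _

/-- Riemann integrability of the final functions. -/
theorem riemannIntegrable_sum (S : NilSystem)
    (hmin : ∀ y : S.Y, Dense (Set.range fun n : ℕ => (fun z : S.Y => S.g • z)^[n] y))
    {B J : Type*} [Fintype B] [Fintype J] (β : B → J → Bool) (F : B → C(S.Y, ℂ))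
    (u : J → C(S.Y, UnitAddCircle)) (d : ℕ)
    (hu : ∀ j y, (DD (fun z : S.Y => S.g • z))^[d + 1] (u j) y = 0) :
    S.RiemannIntegrable fun y => ∑ b, (∏ j, halfInd (β b j) (u j y)) * F b y := by
  have hcs : CompactSpace S.Y := S.cocomp
  refine ⟨⟨∑ b, ‖F b‖, fun y => ?_⟩, fun ν hν hmap => ?_⟩
  · refine (norm_sum_le _ _).trans (Finset.sum_le_sum fun b _ => ?_)
    rw [norm_mul]
    calc ‖∏ j, halfInd (β b j) (u j y)‖ * ‖F b y‖ ≤ 1 * ‖F b‖ :=
          mul_le_mul (norm_prod_halfInd_le _ _) ((F b).norm_coe_le_norm y) (norm_nonneg _)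
            zero_le_one
      _ = ‖F b‖ := one_mul _
  · have hτ : Continuous fun z : S.Y => S.g • z := S.continuous_smul
    have hmp : MeasurePreserving (fun z : S.Y => S.g • z) ν ν := ⟨hτ.measurable, hmap⟩
    have h1 : {y | ¬ ContinuousAt (fun y => ∑ b, (∏ j, halfInd (β b j) (u j y)) * F b y) y} ⊆
        ⋃ (b : B) (j : J), {y | ¬ ContinuousAt (fun y => halfInd (β b j) (u j y)) y} := by
      intro y hy
      by_contra hne
      simp only [Set.mem_iUnion, Set.mem_ofPred_eq, not_exists, not_not] at hne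
      refine hy ?_
      refine tendsto_finsetSum _ fun b _ => ?_
      refine Filter.Tendsto.mul ?_ (F b).continuous.continuousAt
      exact tendsto_finsetProd _ fun j _ => hne b j
    refine measure_mono_null h1 ?_
    rw [measure_iUnion_null_iff]
    intro b
    rw [measure_iUnion_null_iff]
    intro j
    exact null_disc hτ hmin d (u j) (u j).continuous (hu j) (β b j) ν hmp

end MP_e326dc_an
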