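import Pool.Agent.Lib.MP_e326dc_an.Final

set_option autoImplicit false

/-!
MP_e326dc_an, part G1: the suspension of an action of `ℤ^ℓ`.
-/

namespace MP_e326dc_an

open MeasureTheory Filter Topology
open scoped ENNReal

/-- The representative in `[0, 1)` of a point of the circle. -/
noncomputable def rep (θ : UnitAddCircle) : ℝ := (AddCircle.equivIco 1 0 θ : ℝ)

theorem rep_nonneg (θ : UnitAddCircle) : 0 ≤ rep θ := (AddCircle.equivIco 1 0 θ).2.1

theorem rep_lt_one (θ : UnitAddCircle) : rep θ < 1 := by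
  have h : rep θ < 0 + 1 := (AddCircle.equivIco 1 0 θ).2.2
  linarith

theorem coe_rep (θ : UnitAddCircle) : (rep θ : UnitAddCircle) = θ := AddCircle.coe_equivIco

theorem coe_fract (t : ℝ) : ((Int.fract t : ℝ) : UnitAddCircle) = (t : UnitAddCircle) := by
  have h : t = Int.fract t + (⌊t⌋ : ℝ) := (Int.fract_add_floor t).symm
  have h2 : ((⌊t⌋ : ℝ) : UnitAddCircle) = 0 := by
    rw [AddCircle.coe_eq_zero_iff]
    exact ⟨⌊t⌋, by simp⟩
  conv_rhs => rw [h]
  rw [AddCircle.coe_add, h2, add_zero]

theorem rep_coe (t : ℝ) : rep (t : UnitAddCircle) = Int.fract t := by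
  rw [← coe_fract t, rep]
  refine AddCircle.equivIco_coe_of_mem ⟨Int.fract_nonneg t, ?_⟩
  rw [zero_add]
  exact Int.fract_lt_one t

theorem rep_add (θ : UnitAddCircle) (t : ℝ) : rep (θ + t) = Int.fract (rep θ + t) := by
  conv_lhs => rw [← coe_rep θ]
  rw [← AddCircle.coe_add, rep_coe]

theorem measurable_rep : Measurable rep :=
  measurable_subtype_coe.comp (AddCircle.measurableEquivIco 1 0).measurable

variable {ℓ : ℕ}

/-- The image of `t` in the torus. -/
noncomputable def tt (t : Fin ℓ → ℝ) : Fin ℓ → UnitAddCircle := fun j => (t j : UnitAddCircle)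

/-- The integer part. -/
noncomputable def fl (t : Fin ℓ → ℝ) (θ : Fin ℓ → UnitAddCircle) : Fin ℓ → ℤ :=
  fun j => ⌊rep (θ j) + t j⌋

theorem tt_add (t t' : Fin ℓ → ℝ) : tt (t + t') = tt t + tt t' := by
  funext j
  simp [tt]

theorem tt_zero : tt (0 : Fin ℓ → ℝ) = 0 := by
  funext j
  simp [tt]

theorem fl_zero (θ : Fin ℓ → UnitAddCircle) : fl 0 θ = 0 := by
  funext j
  simp only [fl, Pi.zero_apply, add_zero]
  exact Int.floor_eq_zero_iff.mpr ⟨rep_nonneg _, rep_lt_one _⟩

theorem fl_add (t t' : Fin ℓ → ℝ) (θ : Fin ℓ → UnitAddCircle) :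
    fl (t + t') θ = fl t (θ + tt t') + fl t' θ := by
  funext j
  simp only [fl, Pi.add_apply, tt]
  rw [rep_add]
  have h : rep (θ j) + (t j + t' j) = (Int.fract (rep (θ j) + t' j) + t j) +
      (⌊rep (θ j) + t' j⌋ : ℝ) := by
    have := Int.fract_add_floor (rep (θ j) + t' j)
    linarith
  rw [h, Int.floor_add_intCast]

theorem measurable_fl (t : Fin ℓ → ℝ) : Measurable (fl t) := by
  refine measurable_pi_lambda _ fun j => ?_
  refine Int.measurable_floor.comp ?_
  exact (measurable_rep.comp (measurable_pi_apply j)).add_const _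

variable {X : Type*} [MeasurableSpace X] {μ : Measure X}

theorem measurable_act (T : MPAction (Fin ℓ → ℤ) X μ) :
    Measurable fun p : (Fin ℓ → ℤ) × X => T.T p.1 p.2 :=
  measurable_from_prod_countable_right fun v => (T.mp v).measurable

/-- The suspension. -/
noncomputable def susp [SFinite μ] (T : MPAction (Fin ℓ → ℤ) X μ) :
    MPAction (Fin ℓ → ℝ) ((Fin ℓ → UnitAddCircle) × X)
      ((volume : Measure (Fin ℓ → UnitAddCircle)).prod μ) where
  T t p := (p.1 + tt t, T.T (fl t p.1) p.2)
  T_zero p := by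
    rw [tt_zero, add_zero, fl_zero, T.T_zero]
  T_add t t' p := by
    refine Prod.ext ?_ ?_
    · simp only
      rw [tt_add, add_assoc, add_comm (tt t') (tt t)]
    · simp only
      rw [fl_add, T.T_add]
  mp t := by
    refine MeasurePreserving.skew_product (f := fun θ => θ + tt t)
      (g := fun θ x => T.T (fl t θ) x) (measurePreserving_add_right volume (tt t)) ?_ ?_
    · exact (measurable_act T).comp
        (((measurable_fl t).comp measurable_fst).prodMk measurable_snd)
    · exact Filter.Eventually.of_forall fun θ => (T.mp (fl t θ)).map_eq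

theorem susp_T [SFinite μ] (T : MPAction (Fin ℓ → ℤ) X μ) (t : Fin ℓ → ℝ)
    (p : (Fin ℓ → UnitAddCircle) × X) :
    (susp T).T t p = (p.1 + tt t, T.T (fl t p.1) p.2) := rfl

/-! ### The half cube -/

/-- The points of the torus whose coordinates are in `[0, 1/2)`. -/
def halfCube (ℓ : ℕ) : Set (Fin ℓ → UnitAddCircle) := {θ | ∀ j, rep (θ j) < 1 / 2}

theorem measurableSet_halfCube : MeasurableSet (halfCube ℓ) := by
  have : halfCube ℓ = ⋂ j, {θ | rep (θ j) < 1 / 2} := by
    ext θ
    simp [halfCube]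
  rw [this]
  exact MeasurableSet.iInter fun j =>
    measurableSet_lt (measurable_rep.comp (measurable_pi_apply j)) measurable_const

theorem volume_half : (volume : Measure UnitAddCircle) {θ | rep θ < 1 / 2} = ENNReal.ofReal (1 / 2) := by
  have hm : MeasurableSet {θ : UnitAddCircle | rep θ < 1 / 2} :=
    measurableSet_lt measurable_rep measurable_const
  rw [AddCircle.add_projection_respects_measure 1 0 hm]
  have h1 : (QuotientAddGroup.mk ⁻¹' {θ : UnitAddCircle | rep θ < 1 / 2} ∩ Set.Ioc (0 : ℝ) (0 + 1)) =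
      Set.Ioo 0 (1 / 2) ∪ {1} := by
    ext t
    simp only [Set.mem_inter_iff, Set.mem_preimage, Set.mem_ofPred_eq, zero_add, Set.mem_Ioc,
      Set.mem_union, Set.mem_Ioo, Set.mem_singleton_iff]
    have h2 : rep (QuotientAddGroup.mk t : UnitAddCircle) = Int.fract t := rep_coe t
    rw [h2]
    constructor
    · rintro ⟨h3, h4, h5⟩
      rcases h5.lt_or_eq with h | h
      · rw [Int.fract_eq_self.mpr ⟨h4.le, h⟩] at h3
        exact Or.inl ⟨h4, h3⟩
      · exact Or.inr h
    · rintro (⟨h3, h4⟩ | h)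
      · rw [Int.fract_eq_self.mpr ⟨h3.le, by linarith⟩]
        exact ⟨h4, h3, by linarith⟩
      · subst h
        norm_num
  rw [h1, measure_union (by simp; norm_num) (measurableSet_singleton _), Real.volume_singleton, add_zero,
    Real.volume_Ioo, sub_zero]

theorem volume_halfCube :
    ((volume : Measure (Fin ℓ → UnitAddCircle)) (halfCube ℓ)).toReal = (1 / 2) ^ ℓ := by
  have h1 : halfCube ℓ = Set.pi Set.univ fun _ => {θ : UnitAddCircle | rep θ < 1 / 2} := by
    ext θ
    simp [halfCube]
  rw [h1, volume_pi_pi]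
  simp only [volume_half]
  rw [Finset.prod_const, Finset.card_univ, Fintype.card_fin, ENNReal.toReal_pow,
    ENNReal.toReal_ofReal (by norm_num)]

end MP_e326dc_an
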