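import Pool.Agent.Lib.MP_e326dc_an.Defs
import Pool.Agent.Lib.MP_e326dc_an.G.Susp

set_option autoImplicit false

/-!
MP_e326dc_an, part G2: the multicorrelation along real polynomials is exactly a finite sum of
correlations of the suspension, with coefficients given by the fractional parts; real polynomials
are polynomial maps.
-/

namespace MP_e326dc_an

open MeasureTheory Filter Topology
open scoped ENNReal

/-! ### The exact identity -/

/-- The indicator functions of the two halves of the circle. -/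
noncomputable def halfInd (b : Bool) (θ : UnitAddCircle) : ℂ :=
  if (rep θ < 1 / 2 ↔ b = false) then 1 else 0

/-- The multicorrelation as a function on `ℤ`. -/
noncomputable def mcorrZ {ℓ m : ℕ} {X : Type*} [MeasurableSpace X] {μ : Measure X}
    (T : MPAction (Fin ℓ → ℤ) X μ) (q : Fin m → Fin ℓ → Polynomial ℝ) (f₀ : X → ℂ)
    (f : Fin m → X → ℂ) (n : ℤ) : ℂ :=
  ∫ x, f₀ x * ∏ i, f i (T.T (fun j => ⌊(q i j).eval (n : ℝ)⌋) x) ∂μ

theorem multicorr_eq_mcorrZ {ℓ m : ℕ} {X : Type*} [MeasurableSpace X] {μ : Measure X}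
    (T : MPAction (Fin ℓ → ℤ) X μ) (q : Fin m → Fin ℓ → Polynomial ℝ) (f₀ : X → ℂ)
    (f : Fin m → X → ℂ) (n : ℕ) : multicorr T q f₀ f n = mcorrZ T q f₀ f (n : ℤ) := by
  simp only [multicorr, mcorrZ, Int.cast_natCast]

/-- The shifted polynomials. -/
noncomputable def rr {ℓ m : ℕ} (q : Fin m → Fin ℓ → Polynomial ℝ) (b : Fin m → Fin ℓ → Bool)
    (i : Fin m) (n : ℤ) : Fin ℓ → ℝ :=
  fun j => (q i j).eval (n : ℝ) - if b i j = true then 1 / 2 else 0

/-- The function at `0` on the suspension. -/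
noncomputable def susp₀ {ℓ : ℕ} {X : Type*} (f₀ : X → ℂ) (p : (Fin ℓ → UnitAddCircle) × X) : ℂ :=
  (halfCube ℓ).indicator (fun _ => (2 : ℂ) ^ ℓ) p.1 * f₀ p.2

/-- The correlations on the suspension. -/
noncomputable def scorr {ℓ m : ℕ} {X : Type*} [MeasurableSpace X] {μ : Measure X} [SFinite μ]
    (T : MPAction (Fin ℓ → ℤ) X μ) (q : Fin m → Fin ℓ → Polynomial ℝ) (f₀ : X → ℂ)
    (f : Fin m → X → ℂ) (b : Fin m → Fin ℓ → Bool) (n : ℤ) : ℂ :=
  ∫ p, susp₀ f₀ p * ∏ i, f i ((susp T).T (rr q b i n) p).2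
    ∂((volume : Measure (Fin ℓ → UnitAddCircle)).prod μ)

theorem floor_shift {r q : ℝ} {b : Bool} (hr0 : 0 ≤ r) (hr : r < 1 / 2)
    (hb : Int.fract q < 1 / 2 ↔ b = false) :
    ⌊r + (q - if b = true then 1 / 2 else 0)⌋ = ⌊q⌋ := by
  have h1 := Int.fract_add_floor q
  have h2 := Int.fract_nonneg q
  have h3 := Int.fract_lt_one q
  rw [Int.floor_eq_iff]
  cases b with
  | false =>
    have h4 : Int.fract q < 1 / 2 := hb.mpr rfl
    simp only [Bool.false_eq_true, if_false]
    constructor <;> linarith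
  | true =>
    have h4 : 1 / 2 ≤ Int.fract q := by
      by_contra h
      exact Bool.noConfusion (hb.mp (not_le.mp h))
    simp only [if_true]
    constructor <;> linarith

theorem scorr_eq {ℓ m : ℕ} {X : Type*} [MeasurableSpace X] {μ : Measure X} [SFinite μ]
    (T : MPAction (Fin ℓ → ℤ) X μ) (q : Fin m → Fin ℓ → Polynomial ℝ) (f₀ : X → ℂ)
    (f : Fin m → X → ℂ) (b : Fin m → Fin ℓ → Bool) (n : ℤ)
    (hb : ∀ i j, Int.fract ((q i j).eval (n : ℝ)) < 1 / 2 ↔ b i j = false) :
    scorr T q f₀ f b n = mcorrZ T q f₀ f n := by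
  have h1 : ∀ p : (Fin ℓ → UnitAddCircle) × X,
      susp₀ f₀ p * ∏ i, f i ((susp T).T (rr q b i n) p).2 =
      (halfCube ℓ).indicator (fun _ => (2 : ℂ) ^ ℓ) p.1 *
        (f₀ p.2 * ∏ i, f i (T.T (fun j => ⌊(q i j).eval (n : ℝ)⌋) p.2)) := by
    intro p
    rw [susp₀, mul_assoc]
    by_cases hp : p.1 ∈ halfCube ℓ
    · congr 2
      refine Finset.prod_congr rfl fun i _ => ?_
      rw [susp_T]
      have h2 : fl (rr q b i n) p.1 = fun j => ⌊(q i j).eval (n : ℝ)⌋ := by
        funext j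
        exact floor_shift (rep_nonneg _) (hp j) (hb i j)
      rw [h2]
    · rw [Set.indicator_of_notMem hp, zero_mul, zero_mul]
  rw [scorr]
  simp only [h1]
  rw [integral_prod_mul (fun θ => (halfCube ℓ).indicator (fun _ => (2 : ℂ) ^ ℓ) θ)
    (fun x => f₀ x * ∏ i, f i (T.T (fun j => ⌊(q i j).eval (n : ℝ)⌋) x)),
    integral_indicator measurableSet_halfCube, setIntegral_const, Measure.real, volume_halfCube]
  have h3 : ((1 / 2 : ℝ) ^ ℓ • (2 : ℂ) ^ ℓ) = 1 := by
    rw [Complex.real_smul]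
    push_cast
    rw [← mul_pow]
    norm_num
  rw [h3, one_mul, mcorrZ]

/-- The exact identity. -/
theorem mcorrZ_eq_sum {ℓ m : ℕ} {X : Type*} [MeasurableSpace X] {μ : Measure X} [SFinite μ]
    (T : MPAction (Fin ℓ → ℤ) X μ) (q : Fin m → Fin ℓ → Polynomial ℝ) (f₀ : X → ℂ)
    (f : Fin m → X → ℂ) (n : ℤ) :
    mcorrZ T q f₀ f n = ∑ b : Fin m → Fin ℓ → Bool,
      (∏ i, ∏ j, halfInd (b i j) (((q i j).eval (n : ℝ) : ℝ) : UnitAddCircle)) *
        scorr T q f₀ f b n := by
  classical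
  set b₀ : Fin m → Fin ℓ → Bool :=
    fun i j => !(decide (Int.fract ((q i j).eval (n : ℝ)) < 1 / 2)) with hb₀
  have hb : ∀ i j, Int.fract ((q i j).eval (n : ℝ)) < 1 / 2 ↔ b₀ i j = false := by
    intro i j
    simp [hb₀]
  rw [Finset.sum_eq_single b₀]
  · rw [scorr_eq T q f₀ f b₀ n hb]
    have h1 : (∏ i, ∏ j, halfInd (b₀ i j) (((q i j).eval (n : ℝ) : ℝ) : UnitAddCircle)) = 1 := by
      refine Finset.prod_eq_one fun i _ => Finset.prod_eq_one fun j _ => ?_
      rw [halfInd, rep_coe, if_pos (hb i j)]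
    rw [h1, one_mul]
  · intro b _ hne
    obtain ⟨i, hi⟩ := Function.ne_iff.mp hne
    obtain ⟨j, hj⟩ := Function.ne_iff.mp hi
    have h1 : halfInd (b i j) (((q i j).eval (n : ℝ) : ℝ) : UnitAddCircle) = 0 := by
      rw [halfInd, rep_coe, if_neg]
      intro h
      rw [hb i j] at h
      refine hj ?_
      cases hb1 : b i j <;> cases hb2 : b₀ i j <;> simp_all
    rw [Finset.prod_eq_zero (Finset.mem_univ i) (Finset.prod_eq_zero (Finset.mem_univ j) h1),
      zero_mul]
  · intro h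
    exact absurd (Finset.mem_univ _) h

/-! ### Real polynomials are polynomial maps -/

theorem PolyLE.comp_hom {A G H : Type*} [AddCommGroup A] [AddCommGroup G] [AddCommGroup H]
    (φ : G →+ H) : ∀ (d : ℕ) (p : A → G), PolyLE d p → PolyLE d fun x => φ (p x)
  | 0, _, hp => fun x y => congrArg φ (hp x y)
  | d + 1, p, hp => fun h => by
    have h1 := PolyLE.comp_hom φ d _ (hp h)
    simpa only [map_sub] using h1

theorem PolyLE.pi {A ι : Type*} {G : ι → Type*} [AddCommGroup A] [∀ j, AddCommGroup (G j)] :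
    ∀ (d : ℕ) (p : A → ∀ j, G j), (∀ j, PolyLE d fun x => p x j) → PolyLE d p
  | 0, _, hp => fun x y => funext fun j => hp j x y
  | d + 1, p, hp => fun h => PolyLE.pi d _ fun j => hp j h

theorem PolyLE.sub_const {A G : Type*} [AddCommGroup A] [AddCommGroup G] :
    ∀ (d : ℕ) (p : A → G) (c : G), PolyLE d p → PolyLE d fun x => p x - c
  | 0, _, _, hp => fun x y => by
    show _ - _ = _ - _
    rw [hp x y]
  | d + 1, _, c, hp => fun h => by
    have h1 := hp h
    simpa only [sub_sub_sub_cancel_right] using h1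

theorem natDegree_taylor_sub (q : Polynomial ℝ) (t : ℝ) (d : ℕ) (hq : q.natDegree ≤ d + 1) :
    (Polynomial.taylor t q - q).natDegree ≤ d := by
  rw [Polynomial.natDegree_le_iff_coeff_eq_zero]
  intro N hN
  rw [Polynomial.coeff_sub, sub_eq_zero]
  rcases Nat.lt_or_ge q.natDegree N with h | h
  · rw [Polynomial.coeff_eq_zero_of_natDegree_lt h,
      Polynomial.coeff_eq_zero_of_natDegree_lt (by rwa [Polynomial.natDegree_taylor])]
  · have h2 : N = q.natDegree := by omega
    rw [h2, Polynomial.coeff_taylor_natDegree, Polynomial.leadingCoeff]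

theorem polyLE_real (d : ℕ) : ∀ q : Polynomial ℝ, q.natDegree ≤ d →
    PolyLE d fun n : ℤ => q.eval (n : ℝ) := by
  induction d with
  | zero =>
    intro q hq x y
    rw [Polynomial.eq_C_of_natDegree_le_zero hq]
    simp
  | succ d ih =>
    intro q hq h
    have h1 := ih _ (natDegree_taylor_sub q (h : ℝ) d hq)
    refine (congrArg (PolyLE d) (funext fun n => ?_)).mp h1
    simp only [Polynomial.eval_sub, Polynomial.taylor_eval]
    push_cast
    rfl

/-- The polynomials of the suspension. -/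
theorem polyLE_rr {ℓ m : ℕ} (q : Fin m → Fin ℓ → Polynomial ℝ) (b : Fin m → Fin ℓ → Bool)
    (d : ℕ) (hd : ∀ i j, (q i j).natDegree ≤ d) (i : Fin m) : PolyLE d (rr q b i) :=
  PolyLE.pi d _ fun j => PolyLE.sub_const d _ _ (polyLE_real d _ (hd i j))

theorem polyLE_circle (q : Polynomial ℝ) (d : ℕ) (hd : q.natDegree ≤ d) :
    PolyLE d fun n : ℤ => ((q.eval (n : ℝ) : ℝ) : UnitAddCircle) :=
  PolyLE.comp_hom (QuotientAddGroup.mk' (AddSubgroup.zmultiples (1 : ℝ))) d _
    (polyLE_real d q hd)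

end MP_e326dc_an
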